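import Pool.Agent.N422.NWS.Stm

/-! Project NWS, files E1 and EVAL (helper123): the exponential integral with Euler's constant and the
evaluation of the main sum. -/

set_option autoImplicit false

open Finset

namespace Pool.Agent.N422.NWS

open MeasureTheory

lemma EVAL_gamma : ∫ s in Set.Ioi (0 : ℝ), Real.log s * Real.exp (-s) =
    -Real.eulerMascheroniConstant := by
  have h1 := Complex.hasDerivAt_GammaIntegral (s := 1) (by simp)
  have h2 : HasDerivAt Complex.GammaIntegral (-(Real.eulerMascheroniConstant : ℂ)) 1 := by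
    refine Complex.hasDerivAt_Gamma_one.congr_of_eventuallyEq ?_
    have h3 : IsOpen {s : ℂ | 0 < s.re} := Complex.continuous_re.isOpen_preimage _ isOpen_Ioi
    filter_upwards [h3.mem_nhds (by simp : (1 : ℂ) ∈ {s : ℂ | 0 < s.re})] with a ha
    exact (Complex.Gamma_eq_integral ha).symm
  have h3 := h1.unique h2
  have h4 : ∫ t : ℝ in Set.Ioi 0, (t : ℂ) ^ ((1 : ℂ) - 1) * (Real.log t * Real.exp (-t)) =
      ((∫ t in Set.Ioi (0 : ℝ), Real.log t * Real.exp (-t) : ℝ) : ℂ) := by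
    rw [← integral_complex_ofReal]
    congr 1
    ext t
    simp
  rw [h4] at h3
  exact_mod_cast h3

lemma EVAL_log_abs {s : ℝ} (hs : 0 < s) : |Real.log s| ≤ s + 2 * s ^ (-(1 / 2) : ℝ) := by
  have hp : 0 < s ^ (-(1 / 2) : ℝ) := Real.rpow_pos_of_pos hs _
  have h1 := Real.log_le_sub_one_of_pos hs
  have h2 := Real.log_le_sub_one_of_pos hp
  rw [Real.log_rpow hs] at h2
  rw [abs_le]
  constructor <;> linarith

lemma EVAL_intg : IntegrableOn (fun s : ℝ => Real.log s * Real.exp (-s)) (Set.Ioi 0) := by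
  have h1 := Real.GammaIntegral_convergent (s := 2) (by norm_num)
  have h2 := Real.GammaIntegral_convergent (s := 1 / 2) (by norm_num)
  have h3 := h1.add (h2.const_mul 2)
  refine Integrable.mono' h3 ?_ ?_
  · exact (Real.measurable_log.mul (Real.measurable_exp.comp measurable_neg)).aestronglyMeasurable
  · filter_upwards [ae_restrict_mem measurableSet_Ioi] with s hs
    have hs0 : 0 < s := hs
    rw [Real.norm_eq_abs, abs_mul, abs_of_pos (Real.exp_pos _)]
    have h4 := mul_le_mul_of_nonneg_right (EVAL_log_abs hs0) (Real.exp_pos (-s)).le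
    refine h4.trans (le_of_eq ?_)
    simp only [Pi.add_apply]
    rw [show (2 : ℝ) - 1 = 1 by norm_num, Real.rpow_one, show (1 : ℝ) / 2 - 1 = -(1 / 2) by norm_num]
    ring

lemma EVAL_exp_neg {x : ℝ} (hx : 0 ≤ x) : Real.exp (-x) ≤ 1 - x + x ^ 2 := by
  have h1 := Real.add_one_le_exp x
  rw [Real.exp_neg, inv_le_comm₀ (Real.exp_pos x) (by nlinarith)]
  refine le_trans ?_ h1
  rw [inv_le_iff_one_le_mul₀ (by nlinarith)]
  nlinarith [pow_nonneg hx 3]

theorem t_E1 : S_E1 := by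
  intro x y hx hx1 hxy
  have hy : 0 < y := lt_of_lt_of_le hx hxy
  have hF := EVAL_intg
  have hFx : IntegrableOn (fun s : ℝ => Real.log s * Real.exp (-s)) (Set.Ioi x) :=
    hF.mono_set (Set.Ioi_subset_Ioi hx.le)
  have hFy : IntegrableOn (fun s : ℝ => Real.log s * Real.exp (-s)) (Set.Ioi y) :=
    hF.mono_set (Set.Ioi_subset_Ioi hy.le)
  have h0 := intervalIntegral.integral_interval_add_Ioi hF hFx
  have h1 := intervalIntegral.integral_interval_add_Ioi hFx hFy
  rw [EVAL_gamma] at h0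
  -- integration by parts
  have hpos : ∀ s ∈ Set.uIcc x y, 0 < s := by
    intro s hs
    rw [Set.uIcc_of_le hxy] at hs
    exact lt_of_lt_of_le hx hs.1
  have hi1 : IntervalIntegrable (fun s : ℝ => Real.exp (-s) / s) volume x y := by
    apply ContinuousOn.intervalIntegrable
    exact ContinuousOn.div (by fun_prop) (by fun_prop) fun s hs => (hpos s hs).ne'
  have hi2 : IntervalIntegrable (fun s : ℝ => Real.log s * Real.exp (-s)) volume x y := by
    apply ContinuousOn.intervalIntegrable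
    exact ContinuousOn.mul (Real.continuousOn_log.mono fun s hs => (hpos s hs).ne') (by fun_prop)
  have h2 : ∫ s in x..y, (Real.exp (-s) / s - Real.log s * Real.exp (-s)) =
      Real.log y * Real.exp (-y) - Real.log x * Real.exp (-x) := by
    refine intervalIntegral.integral_eq_sub_of_hasDerivAt (f := fun s =>
      Real.log s * Real.exp (-s)) (fun s hs => ?_) (hi1.sub hi2)
    have h3 := (Real.hasDerivAt_log (hpos s hs).ne').mul ((hasDerivAt_neg s).exp)
    refine h3.congr_deriv ?_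
    ring
  rw [intervalIntegral.integral_sub hi1 hi2] at h2
  -- the tail
  have h3 : Real.log y * Real.exp (-y) ≤ ∫ s in Set.Ioi y, Real.log s * Real.exp (-s) := by
    have e1 : Real.log y * Real.exp (-y) = ∫ s in Set.Ioi y, Real.log y * Real.exp (-s) := by
      rw [integral_const_mul, integral_exp_neg_Ioi]
    rw [e1]
    refine setIntegral_mono_on ?_ hFy measurableSet_Ioi fun s hs => ?_
    · exact (integrableOn_exp_neg_Ioi y).const_mul _
    · have hs' : y < s := hs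
      exact mul_le_mul_of_nonneg_right (Real.log_le_log hy hs'.le) (Real.exp_pos _).le
  -- near 0
  have h4 : x * Real.log x - x ≤ ∫ s in (0 : ℝ)..x, Real.log s * Real.exp (-s) := by
    have e1 : ∫ s in (0 : ℝ)..x, Real.log s = x * Real.log x - x := integral_log_from_zero
    rw [← e1]
    refine intervalIntegral.integral_mono_on hx.le intervalIntegral.intervalIntegrable_log' ?_ ?_
    · rw [intervalIntegrable_iff_integrableOn_Ioc_of_le hx.le]
      exact hF.mono_set fun s hs => hs.1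
    · intro s hs
      have h5 : Real.log s ≤ 0 := Real.log_nonpos hs.1 (hs.2.trans hx1)
      have h6 : Real.exp (-s) ≤ 1 := by
        rw [Real.exp_le_one_iff]
        linarith [hs.1]
      nlinarith
  have h5 : 0 ≤ -Real.log x := by
    have := Real.log_nonpos hx.le hx1
    linarith
  have h6 : -Real.log x * x ≤ 1 := by
    have h7 := Real.one_sub_inv_le_log_of_pos hx
    have h8 : (1 - x⁻¹) * x ≤ Real.log x * x := mul_le_mul_of_nonneg_right h7 hx.le
    rw [sub_mul, inv_mul_cancel₀ hx.ne'] at h8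
    linarith
  have h7 := mul_le_mul_of_nonneg_left (EVAL_exp_neg hx.le) h5
  have h8 : -Real.log x * (1 - x + x ^ 2) ≤ -Real.log x + x * Real.log x + x := by
    have : x * (-Real.log x * x) ≤ x * 1 := mul_le_mul_of_nonneg_left h6 hx.le
    nlinarith
  linarith

/-! ### the main sum -/

/-- comparison of the sum with the integral -/
lemma EVAL_cmp (g : ℝ → ℝ) (J ρ : ℕ) (hJ : 1 ≤ J) (hρ : 2 ≤ ρ) (h0 : ∀ x : ℝ, 0 < x → 0 ≤ g x)
    (hg : AntitoneOn g (Set.Ioi 0)) :
    ∑ h ∈ Ico J (ρ * J), g h ≤ g J + ∫ x in (J : ℝ)..((ρ * J : ℕ) : ℝ), g x := by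
  have hlt : J < ρ * J := by nlinarith
  have h1 := AntitoneOn.sum_le_integral_Ico (f := g) hlt.le (hg.mono fun x hx => by
    have h2 : (1 : ℝ) ≤ J := by exact_mod_cast hJ
    exact lt_of_lt_of_le one_pos (h2.trans hx.1))
  have h2 : ∑ i ∈ Ico J (ρ * J), g ((i + 1 : ℕ) : ℝ) = ∑ h ∈ Ico (J + 1) (ρ * J + 1), g (h : ℝ) :=
    Finset.sum_Ico_add' (fun h : ℕ => g (h : ℝ)) J (ρ * J) 1
  rw [h2, Finset.sum_Ico_succ_top (by omega)] at h1
  rw [Finset.sum_eq_sum_Ico_succ_bot hlt]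
  have h3 : 0 ≤ g ((ρ * J : ℕ) : ℝ) := h0 _ (by
    have : 0 < ρ * J := by omega
    exact_mod_cast this)
  linarith

lemma EVAL_sub (μ : ℝ) (hμ : 0 < μ) (J ρ : ℕ) (hJ : 1 ≤ J) :
    ∫ x in (J : ℝ)..((ρ * J : ℕ) : ℝ), Real.exp (-(μ * x / J)) / x =
      ∫ s in μ..(ρ * μ), Real.exp (-s) / s := by
  have hJ0 : (0 : ℝ) < J := by exact_mod_cast hJ
  have hc : μ / J ≠ 0 := (div_pos hμ hJ0).ne'
  have h1 := intervalIntegral.integral_comp_mul_left (a := (J : ℝ)) (b := ((ρ * J : ℕ) : ℝ))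
    (fun s => Real.exp (-s) / s) hc
  have e1 : μ / J * J = μ := div_mul_cancel₀ _ hJ0.ne'
  have e2 : μ / J * ((ρ * J : ℕ) : ℝ) = ρ * μ := by
    push_cast
    field_simp
  rw [e1, e2, smul_eq_mul] at h1
  have h2 : ∫ x in (J : ℝ)..((ρ * J : ℕ) : ℝ), Real.exp (-(μ * x / J)) / x =
      μ / J * ∫ x in (J : ℝ)..((ρ * J : ℕ) : ℝ), Real.exp (-(μ / J * x)) / (μ / J * x) := by
    rw [← intervalIntegral.integral_const_mul]
    congr 1
    ext x
    rw [mul_div_assoc', mul_div_mul_left _ _ hc]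
    congr 3
    ring
  rw [h2, h1, mul_inv_cancel_left₀ hc]

/-- the sum in the exponent -/
noncomputable def EVAL_S (J ρ : ℕ) (μ : ℝ) : ℝ := ∑ h ∈ Ico J (ρ * J), Real.exp (-(μ * h / J)) / h

/-- the product -/
noncomputable def EVAL_G (J ρ : ℕ) (μ : ℝ) : ℝ := ∏ h ∈ Ico J (ρ * J), (1 + Real.exp (-(μ * h / J)) / h)

lemma EVAL_prod (J ρ : ℕ) (μ : ℝ) : EVAL_G J ρ μ ≤ Real.exp (EVAL_S J ρ μ) := by
  unfold EVAL_G EVAL_S
  rw [Real.exp_sum]
  refine Finset.prod_le_prod (fun h _ => by positivity) fun h _ => ?_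
  rw [add_comm]
  exact Real.add_one_le_exp _

lemma EVAL_S_nonneg (J ρ : ℕ) (μ : ℝ) : 0 ≤ EVAL_S J ρ μ :=
  Finset.sum_nonneg fun h _ => by positivity

lemma EVAL_cont (J ρ : ℕ) : Continuous (EVAL_G J ρ) := by
  unfold EVAL_G
  fun_prop

/-- the exponent for positive `μ` -/
lemma EVAL_S_le (J ρ : ℕ) (hJ : 1 ≤ J) (hρ : 2 ≤ ρ) {μ : ℝ} (hμ : 0 < μ) :
    EVAL_S J ρ μ ≤ Real.exp (-μ) / J + ∫ s in μ..(ρ * μ), Real.exp (-s) / s := by
  have hJ0 : (0 : ℝ) < J := by exact_mod_cast hJ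
  have h1 := EVAL_cmp (fun x => Real.exp (-(μ * x / J)) / x) J ρ hJ hρ
    (fun x hx => by positivity) (by
      intro x hx y hy hxy
      have hx0 : (0 : ℝ) < x := hx
      simp only
      have h2 : Real.exp (-(μ * y / J)) ≤ Real.exp (-(μ * x / J)) := by
        apply Real.exp_le_exp.2
        have : μ * x / J ≤ μ * y / J := by gcongr
        linarith
      gcongr)
  rw [EVAL_sub μ hμ J ρ hJ] at h1
  have e1 : μ * (J : ℝ) / J = μ := mul_div_cancel_right₀ _ hJ0.ne'
  rw [e1] at h1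
  exact h1

lemma EVAL_small (J ρ : ℕ) (hJ : 1 ≤ J) (hρ : 2 ≤ ρ) {μ : ℝ} (hμ : 0 ≤ μ) :
    EVAL_G J ρ μ ≤ ρ * Real.exp (1 / J) := by
  have hJ0 : (0 : ℝ) < J := by exact_mod_cast hJ
  have hρ0 : (0 : ℝ) < ρ := by
    have : 0 < ρ := by omega
    exact_mod_cast this
  refine (EVAL_prod J ρ μ).trans ?_
  have h1 := EVAL_cmp (fun x => 1 / x) J ρ hJ hρ (fun x hx => by positivity) (by
      intro x hx y hy hxy
      exact one_div_le_one_div_of_le hx hxy)
  have h2 : ∫ x in (J : ℝ)..((ρ * J : ℕ) : ℝ), 1 / x = Real.log ρ := by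
    rw [integral_one_div_of_pos hJ0 (by push_cast; positivity)]
    congr 1
    push_cast
    field_simp
  rw [h2] at h1
  have h3 : EVAL_S J ρ μ ≤ ∑ h ∈ Ico J (ρ * J), 1 / (h : ℝ) := by
    unfold EVAL_S
    refine Finset.sum_le_sum fun h _ => ?_
    have h4 : Real.exp (-(μ * h / J)) ≤ 1 := by
      rw [Real.exp_le_one_iff]
      have : 0 ≤ μ * h / J := by positivity
      linarith
    gcongr
  calc Real.exp (EVAL_S J ρ μ) ≤ Real.exp (Real.log ρ + 1 / J) := by
        apply Real.exp_le_exp.2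
        linarith
    _ = ρ * Real.exp (1 / J) := by rw [Real.exp_add, Real.exp_log hρ0]

lemma EVAL_exp_le {x : ℝ} (h0 : 0 ≤ x) (h1 : x ≤ 1) : Real.exp x ≤ 1 + 2 * x := by
  have h2 := Real.abs_exp_sub_one_le (x := x) (by rw [abs_of_nonneg h0]; exact h1)
  rw [abs_of_nonneg h0] at h2
  have := (abs_le.1 h2).2
  linarith

lemma EVAL_mid (hE : S_E1) (J ρ : ℕ) (hJ : 1 ≤ J) (hρ : 2 ≤ ρ) {μ : ℝ} (hμ : 0 < μ) (hμ1 : μ ≤ 1) :
    EVAL_G J ρ μ ≤ Real.exp (1 / J) * Real.exp (-Real.eulerMascheroniConstant) * (1 / μ + 8) := by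
  have hJ0 : (0 : ℝ) < J := by exact_mod_cast hJ
  have hρ1 : (1 : ℝ) ≤ ρ := by
    have : 1 ≤ ρ := by omega
    exact_mod_cast this
  refine (EVAL_prod J ρ μ).trans ?_
  have h1 := EVAL_S_le J ρ hJ hρ hμ
  have h2 := hE μ (ρ * μ) hμ hμ1 (by nlinarith)
  have h3 : Real.exp (-μ) / J ≤ 1 / J := by
    have h4 : Real.exp (-μ) ≤ 1 := by
      rw [Real.exp_le_one_iff]
      linarith
    gcongr
  have h5 : Real.exp (2 * μ) ≤ 1 + 8 * μ := by
    have h6 := EVAL_exp_le hμ.le hμ1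
    have h7 : Real.exp (2 * μ) = Real.exp μ ^ 2 := by
      rw [← Real.exp_nat_mul]
      norm_num
    rw [h7]
    have h8 : Real.exp μ ^ 2 ≤ (1 + 2 * μ) ^ 2 := pow_le_pow_left₀ (Real.exp_pos _).le h6 2
    nlinarith
  calc Real.exp (EVAL_S J ρ μ) ≤ Real.exp (1 / J + (-Real.eulerMascheroniConstant) +
        (2 * μ - Real.log μ)) := by
        apply Real.exp_le_exp.2
        linarith
    _ = Real.exp (1 / J) * Real.exp (-Real.eulerMascheroniConstant) * (Real.exp (2 * μ) / μ) := by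
        rw [Real.exp_add, Real.exp_add, Real.exp_sub, Real.exp_log hμ]
    _ ≤ Real.exp (1 / J) * Real.exp (-Real.eulerMascheroniConstant) * ((1 + 8 * μ) / μ) := by
        gcongr
    _ = _ := by
        congr 1
        field_simp

lemma EVAL_big (J ρ : ℕ) (hJ : 1 ≤ J) (hρ : 2 ≤ ρ) {μ : ℝ} (hμ : 1 ≤ μ) :
    EVAL_G J ρ μ - 1 ≤ 4 * Real.exp (-μ) := by
  have hJ1 : (1 : ℝ) ≤ J := by exact_mod_cast hJ
  have hμ0 : 0 < μ := by linarith
  have hρ1 : (1 : ℝ) ≤ ρ := by
    have : 1 ≤ ρ := by omega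
    exact_mod_cast this
  have hle : μ ≤ ρ * μ := by nlinarith
  have h0 := EVAL_prod J ρ μ
  have h1 := EVAL_S_le J ρ hJ hρ hμ0
  have hint : ∫ s in μ..(ρ * μ), Real.exp (-s) = Real.exp (-μ) - Real.exp (-(ρ * μ)) := by
    have h2 := intervalIntegral.integral_eq_sub_of_hasDerivAt (a := μ) (b := ρ * μ)
      (f := fun s => -Real.exp (-s)) (f' := fun s => Real.exp (-s)) (fun s _ => by
        refine ((hasDerivAt_neg s).exp.neg).congr_deriv ?_
        ring) (Continuous.intervalIntegrable (by fun_prop) _ _)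
    rw [h2]
    ring
  have h2 : ∫ s in μ..(ρ * μ), Real.exp (-s) / s ≤ Real.exp (-μ) := by
    have h3 : ∫ s in μ..(ρ * μ), Real.exp (-s) / s ≤ ∫ s in μ..(ρ * μ), Real.exp (-s) := by
      refine intervalIntegral.integral_mono_on hle ?_ (Continuous.intervalIntegrable (by fun_prop) _ _)
        fun s hs => ?_
      · apply ContinuousOn.intervalIntegrable
        refine ContinuousOn.div (by fun_prop) (by fun_prop) fun s hs => ?_
        rw [Set.uIcc_of_le hle] at hs
        have := hs.1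
        linarith
      · have h4 : 1 ≤ s := hμ.trans hs.1
        exact div_le_self (Real.exp_pos _).le h4
    rw [hint] at h3
    have := Real.exp_pos (-(ρ * μ))
    linarith
  have h3 : Real.exp (-μ) / J ≤ Real.exp (-μ) := div_le_self (Real.exp_pos _).le hJ1
  have h4 : Real.exp (-μ) ≤ 1 / 2 := by
    rw [Real.exp_neg, inv_le_comm₀ (Real.exp_pos _) (by norm_num)]
    have := Real.add_one_le_exp μ
    norm_num
    linarith
  have h5 := EVAL_exp_le (EVAL_S_nonneg J ρ μ) (by linarith)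
  linarith

/-- the integral of an exponential -/
lemma EVAL_ie (c Λ : ℝ) (hc : 0 < c) :
    ∫ μ in (0 : ℝ)..Λ, Real.exp (-(c * μ)) = (1 - Real.exp (-(c * Λ))) / c := by
  have h2 := intervalIntegral.integral_eq_sub_of_hasDerivAt (a := 0) (b := Λ)
      (f := fun μ => -Real.exp (-(c * μ)) / c) (f' := fun μ => Real.exp (-(c * μ))) (fun s _ => by
        have h3 := ((((hasDerivAt_id s).const_mul c).neg.exp).neg).div_const c
        refine h3.congr_deriv ?_
        simp only [id]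
        field_simp
        rfl) (Continuous.intervalIntegrable (by fun_prop) _ _)
  rw [h2]
  simp only [mul_zero, neg_zero, Real.exp_zero]
  ring

/-- the bound for the integral -/
lemma EVAL_int (hE : S_E1) (J ρ : ℕ) (hJ : 1 ≤ J) (hρ : 2 ≤ ρ) {Λ : ℝ} (hΛ : 1 ≤ Λ) :
    ∫ μ in (0 : ℝ)..Λ, (EVAL_G J ρ μ - 1) ≤ Real.exp (1 / J) +
      Real.exp (1 / J) * Real.exp (-Real.eulerMascheroniConstant) * (Real.log ρ + 8) + 4 := by
  have hρ0 : (0 : ℝ) < ρ := by
    have : 0 < ρ := by omega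
    exact_mod_cast this
  have hρ1 : (1 : ℝ) ≤ ρ := by
    have : 1 ≤ ρ := by omega
    exact_mod_cast this
  have hr0 : 0 < 1 / (ρ : ℝ) := by positivity
  have hr1 : 1 / (ρ : ℝ) ≤ 1 := by
    rw [div_le_one hρ0]
    exact hρ1
  have hG : ∀ a b : ℝ, IntervalIntegrable (fun μ => EVAL_G J ρ μ - 1) volume a b := fun a b =>
    Continuous.intervalIntegrable ((EVAL_cont J ρ).sub continuous_const) a b
  rw [← intervalIntegral.integral_add_adjacent_intervals (hG 0 1) (hG 1 Λ),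
    ← intervalIntegral.integral_add_adjacent_intervals (hG 0 (1 / ρ)) (hG (1 / ρ) 1)]
  have h1 : ∫ μ in (0 : ℝ)..(1 / ρ), (EVAL_G J ρ μ - 1) ≤ Real.exp (1 / J) := by
    have h2 := intervalIntegral.integral_mono_on hr0.le (hG 0 (1 / ρ))
      (g := fun _ => (ρ : ℝ) * Real.exp (1 / J)) (Continuous.intervalIntegrable (by fun_prop) _ _)
      (fun μ hμ => by
        have := EVAL_small J ρ hJ hρ hμ.1
        linarith)
    rw [intervalIntegral.integral_const, smul_eq_mul, sub_zero] at h2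
    refine h2.trans (le_of_eq ?_)
    field_simp
  have h2 : ∫ μ in (1 / ρ : ℝ)..1, (EVAL_G J ρ μ - 1) ≤
      Real.exp (1 / J) * Real.exp (-Real.eulerMascheroniConstant) * (Real.log ρ + 8) := by
    have hi : IntervalIntegrable (fun μ : ℝ => 1 / μ) volume (1 / ρ) 1 := by
      apply ContinuousOn.intervalIntegrable
      refine ContinuousOn.div (by fun_prop) (by fun_prop) fun s hs => ?_
      rw [Set.uIcc_of_le hr1] at hs
      exact (lt_of_lt_of_le hr0 hs.1).ne'
    have h3 := intervalIntegral.integral_mono_on hr1 (hG (1 / ρ) 1)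
      (g := fun μ => Real.exp (1 / J) * Real.exp (-Real.eulerMascheroniConstant) * (1 / μ + 8))
      ((hi.add intervalIntegrable_const).const_mul _) (fun μ hμ => by
        have := EVAL_mid hE J ρ hJ hρ (lt_of_lt_of_le hr0 hμ.1) hμ.2
        linarith)
    rw [intervalIntegral.integral_const_mul, intervalIntegral.integral_add hi
      intervalIntegrable_const, integral_one_div_of_pos hr0 one_pos,
      intervalIntegral.integral_const, smul_eq_mul, one_div_one_div] at h3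
    refine h3.trans ?_
    gcongr
    linarith
  have h3 : ∫ μ in (1 : ℝ)..Λ, (EVAL_G J ρ μ - 1) ≤ 4 := by
    have h4 := intervalIntegral.integral_mono_on hΛ (hG 1 Λ)
      (g := fun μ => 4 * Real.exp (-μ)) (Continuous.intervalIntegrable (by fun_prop) _ _)
      (fun μ hμ => EVAL_big J ρ hJ hρ hμ.1)
    have h5 : ∫ s in (1 : ℝ)..Λ, 4 * Real.exp (-s) = 4 * (Real.exp (-1) - Real.exp (-Λ)) := by
      have h6 := intervalIntegral.integral_eq_sub_of_hasDerivAt (a := 1) (b := Λ)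
        (f := fun s => -(4 * Real.exp (-s))) (f' := fun s => 4 * Real.exp (-s)) (fun s _ => by
          refine (((hasDerivAt_neg s).exp.const_mul 4).neg).congr_deriv ?_
          ring) (Continuous.intervalIntegrable (by fun_prop) _ _)
      rw [h6]
      ring
    rw [h5] at h4
    have h6 : Real.exp (-1) ≤ 1 := by
      rw [Real.exp_le_one_iff]
      norm_num
    have := Real.exp_pos (-Λ)
    linarith
  linarith

/-- the expansion of the product -/
lemma EVAL_expand (J ρ : ℕ) (μ : ℝ) : EVAL_G J ρ μ - 1 =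
    ∑ A ∈ (Ico J (ρ * J)).powerset.erase ∅, (∏ h ∈ A, 1 / (h : ℝ)) *
      Real.exp (-((∑ h ∈ A, (h : ℝ)) / J * μ)) := by
  unfold EVAL_G
  rw [Finset.prod_one_add, ← Finset.add_sum_erase _ _ (Finset.empty_mem_powerset _),
    Finset.prod_empty, add_sub_cancel_left]
  refine Finset.sum_congr rfl fun A _ => ?_
  rw [Finset.sum_div, Finset.sum_mul, ← Finset.sum_neg_distrib, Real.exp_sum,
    ← Finset.prod_mul_distrib]
  refine Finset.prod_congr rfl fun h _ => ?_
  rw [show -((h : ℝ) / J * μ) = -(μ * h / J) by ring]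
  ring

theorem EVAL_of (hE : S_E1) : S_EVAL := by
  refine ⟨16, by norm_num, fun ρ hρ => ?_⟩
  have hρ1 : (1 : ℝ) ≤ ρ := by
    have : 1 ≤ ρ := by omega
    exact_mod_cast this
  have hlog : 0 ≤ Real.log ρ := Real.log_nonneg hρ1
  refine ⟨⌈2 * (Real.log ρ + 8)⌉₊, ?_, fun J hJ => ?_⟩
  · rw [Nat.one_le_ceil_iff]
    positivity
  have hJR : 2 * (Real.log ρ + 8) ≤ J := Nat.ceil_le.1 hJ
  have hJ1R : (1 : ℝ) ≤ J := by linarith
  have hJ1 : 1 ≤ J := by exact_mod_cast hJ1R
  have hJ0 : (0 : ℝ) < J := by linarith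
  obtain ⟨T, hT⟩ : ∃ T : ℝ, T = J * ∑ A ∈ (Ico J (ρ * J)).powerset.erase ∅,
    (∏ h ∈ A, 1 / (h : ℝ)) / (∑ h ∈ A, (h : ℝ)) := ⟨_, rfl⟩
  rw [← hT]
  -- the size of the sets
  have hsz : ∀ A ∈ (Ico J (ρ * J)).powerset.erase ∅, (J : ℝ) ≤ ∑ h ∈ A, (h : ℝ) := by
    intro A hA
    rw [Finset.mem_erase, Finset.mem_powerset] at hA
    obtain ⟨a, ha⟩ := Finset.nonempty_iff_ne_empty.2 hA.1
    have h1 : (a : ℝ) ≤ ∑ h ∈ A, (h : ℝ) :=
      Finset.single_le_sum (f := fun h : ℕ => (h : ℝ)) (fun i _ => Nat.cast_nonneg i) ha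
    have h2 : J ≤ a := (Finset.mem_Ico.1 (hA.2 ha)).1
    have h3 : (J : ℝ) ≤ a := by exact_mod_cast h2
    linarith
  obtain ⟨B, hB⟩ : ∃ B : ℝ, B = Real.exp (1 / J) +
      Real.exp (1 / J) * Real.exp (-Real.eulerMascheroniConstant) * (Real.log ρ + 8) + 4 := ⟨_, rfl⟩
  have key : ∀ Λ : ℝ, 1 ≤ Λ → (1 - Real.exp (-Λ)) * T ≤ B := by
    intro Λ hΛ
    rw [hB]
    refine le_trans ?_ (EVAL_int hE J ρ hJ1 hρ hΛ)
    simp only [EVAL_expand]
    rw [intervalIntegral.integral_finsetSum fun A _ => Continuous.intervalIntegrable (by fun_prop) _ _,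
      hT, Finset.mul_sum, Finset.mul_sum]
    refine Finset.sum_le_sum fun A hA => ?_
    have hs := hsz A hA
    obtain ⟨s, hsd⟩ : ∃ s : ℝ, s = ∑ h ∈ A, (h : ℝ) := ⟨_, rfl⟩
    rw [← hsd] at hs ⊢
    have hs0 : 0 < s := by linarith
    have hc1 : 1 ≤ s / J := by rwa [le_div_iff₀ hJ0, one_mul]
    have hw : 0 ≤ ∏ h ∈ A, 1 / (h : ℝ) := Finset.prod_nonneg fun h _ => by positivity
    rw [intervalIntegral.integral_const_mul, EVAL_ie _ _ (by positivity)]
    have h1 : Real.exp (-(s / J * Λ)) ≤ Real.exp (-Λ) := by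
      apply Real.exp_le_exp.2
      nlinarith
    calc (1 - Real.exp (-Λ)) * (J * ((∏ h ∈ A, 1 / (h : ℝ)) / s)) =
        (∏ h ∈ A, 1 / (h : ℝ)) * ((1 - Real.exp (-Λ)) / (s / J)) := by
          field_simp
      _ ≤ _ := by gcongr
  have hlim : Filter.Tendsto (fun Λ : ℝ => (1 - Real.exp (-Λ)) * T) Filter.atTop
      (nhds ((1 - 0) * T)) :=
    (tendsto_const_nhds.sub Real.tendsto_exp_neg_atTop_nhds_zero).mul_const T
  rw [sub_zero, one_mul] at hlim
  have hTB : T ≤ B := le_of_tendsto hlim (by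
    filter_upwards [Filter.eventually_ge_atTop (1 : ℝ)] with Λ hΛ
    exact key Λ hΛ)
  refine hTB.trans ?_
  rw [hB]
  have h1 : Real.exp (1 / J) ≤ 1 + 2 * (1 / J) := EVAL_exp_le (by positivity) (by
    rw [div_le_one hJ0]
    exact hJ1R)
  have h2 : Real.exp (-Real.eulerMascheroniConstant) ≤ 1 := by
    rw [Real.exp_le_one_iff]
    have := Real.one_half_lt_eulerMascheroniConstant
    linarith
  have h3 := Real.exp_pos (-Real.eulerMascheroniConstant)
  have h4 : 1 / (J : ℝ) ≤ 1 := by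
    rw [div_le_one hJ0]
    exact hJ1R
  have h5 : 2 * (1 / (J : ℝ)) * (Real.log ρ + 8) ≤ 1 := by
    rw [mul_one_div, div_mul_eq_mul_div, div_le_one hJ0]
    exact hJR
  have h6 : Real.exp (1 / J) * Real.exp (-Real.eulerMascheroniConstant) * (Real.log ρ + 8) ≤
      (1 + 2 * (1 / J)) * Real.exp (-Real.eulerMascheroniConstant) * (Real.log ρ + 8) := by
    gcongr
  have h7 : (1 + 2 * (1 / J)) * Real.exp (-Real.eulerMascheroniConstant) * (Real.log ρ + 8) =
      Real.exp (-Real.eulerMascheroniConstant) * (Real.log ρ + 8) +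
      Real.exp (-Real.eulerMascheroniConstant) * (2 * (1 / (J : ℝ)) * (Real.log ρ + 8)) := by ring
  have h8 : Real.exp (-Real.eulerMascheroniConstant) * (2 * (1 / (J : ℝ)) * (Real.log ρ + 8)) ≤
      1 * 1 := by
    gcongr
  nlinarith

theorem t_EVAL : S_EVAL := EVAL_of t_E1

end Pool.Agent.N422.NWS
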