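import Pool.Agent.N422.NW.Stm

/-! Project NWS (helper422): the sharp limit for all nonnegative weights: definitions and statements of the
self-contained pieces. -/

set_option autoImplicit false

open Finset

namespace Pool.Agent.N422.NWS

open Pool.Agent.N422.NW

/-- the local law: every site is hit with probability `u` -/
noncomputable def mu1u {k : ℕ} (u : ℝ) : Option (Fin k) → ℝ
  | some _ => u
  | none => 1 - k * u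

/-- the law -/
noncomputable def muU {N k : ℕ} (u : Fin N → ℝ) (γ : St N k) : ℝ := ∏ i, mu1u (u i) (γ i)

/-- the places at which the site `a` is hit -/
def Ta {N k : ℕ} (γ : St N k) (a : Fin k) : Finset (Fin N) := univ.filter (fun i => γ i = some a)

/-- the general inequality (NWS/GEN) -/
def S_GEN : Prop := ∀ (N k n : ℕ) (μ f : St N k → ℝ) (t : ℝ) (K : ℂ → St N k → St N k → ℂ)
  (φ : ℂ → St N k → ℝ) (E LB : St N k → ℝ), (∀ γ, 0 ≤ μ γ) → (∀ γ, 0 ≤ f γ) → 0 < t →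
  (∀ γ γ', K (Real.exp (-t) : ℝ) γ γ' = if γ' = γ then 1 else 0) →
  (∀ γ, ∃ P : Polynomial ℂ, ∀ z : ℂ, z ≠ 0 → P.eval z = z ^ n * ∑ γ', K z γ γ' * (f γ' : ℂ)) →
  (∀ z : ℂ, ‖z‖ = 1 → (∀ γ, 0 < φ z γ) ∧ ∀ γ', ∑ γ, μ γ * φ z γ * ‖K z γ γ'‖ ≤ (1 + E γ') * μ γ') →
  (∀ γ, CircleIntegrable (fun w => Real.log (φ (psi (Real.exp (-t)) w) γ)) 0 1 ∧
    LB γ ≤ Real.circleAverage (fun w => Real.log (φ (psi (Real.exp (-t)) w) γ)) 0 1) →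
  ∑ γ, μ γ * f γ * LB γ ≤ n * t * ∑ γ, μ γ * f γ + ∑ γ, μ γ * f γ * E γ

/-- the sites at the place `i` -/
noncomputable def lam {N k : ℕ} (ω : Fin k → Finset (Fin N)) (i : Fin N) : Option (Fin k) → ℝ
  | some a => if i ∈ ω a then 1 else 0
  | none => 1 - ((univ.filter (fun a => i ∈ ω a)).card : ℝ)

/-- the kernel of all sites, from the kernel of one site -/
noncomputable def KX {N k : ℕ} (K : Finset (Fin N) → Finset (Fin N) → ℂ) (γ γ' : St N k) : ℂ :=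
  ∑ ω : Fin k → Finset (Fin N), (∏ a, K (Ta γ a) (ω a)) * ((∏ i, lam ω i (γ' i) : ℝ) : ℂ)

/-- polynomials for all sites (NWS/MPOL) -/
def S_MPOL : Prop := ∀ (N k n : ℕ) (ν : Fin N → ℕ) (f : St N k → ℝ), Lev ν n f →
  ∀ K : ℂ → Finset (Fin N) → Finset (Fin N) → ℂ,
  (∀ T F : Finset (Fin N), ∃ P : Polynomial ℂ, ∀ z : ℂ, z ≠ 0 →
    P.eval z = z ^ (∑ i ∈ F, ν i) * ∑ T' ∈ univ.filter (fun T' : Finset (Fin N) => F ⊆ T'), K z T T') →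
  ∀ γ : St N k, ∃ P : Polynomial ℂ, ∀ z : ℂ, z ≠ 0 → P.eval z = z ^ n * ∑ γ', KX (K z) γ γ' * (f γ' : ℂ)

/-- a law for the set of places at which one site is hit -/
noncomputable def muPl {N : ℕ} (k : ℕ) (u : Fin N → ℝ) (T : Finset (Fin N)) : ℝ :=
  ∏ i, (if i ∈ T then u i * (1 + 2 * k * u i) else 1 - u i)

/-- the kernel of all sites is almost adjoint (NWS/ABS) -/
def S_ABS : Prop := ∀ (N k : ℕ) (u : Fin N → ℝ) (Z : ℝ) (K : Finset (Fin N) → Finset (Fin N) → ℝ)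
  (φ : Finset (Fin N) → ℝ), (∀ i, 0 ≤ u i ∧ 2 * k * u i ≤ 1) → 0 ≤ Z → (∀ T T', 0 ≤ K T T') → (∀ T, 0 ≤ φ T) →
  (∀ T', ∑ T, muPl k u T * φ T * K T T' ≤ Z * muPl k u T') →
  ∀ γ' : St N k, ∑ γ, muU u γ * (∏ a, φ (Ta γ a)) * ‖KX (fun T T' => (K T T' : ℂ)) γ γ'‖ ≤
    Z ^ k * Real.exp (∑ i, (20 * k ^ 2 * u i ^ 2 + if γ' i = none then 0 else 2 * k * u i)) * muU u γ'

/-- all sites (NWS/MULTI) -/
def S_MULTI : Prop := ∀ (N k n : ℕ) (u : Fin N → ℝ) (ν : Fin N → ℕ) (t Z : ℝ)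
  (K : ℂ → Finset (Fin N) → Finset (Fin N) → ℂ) (Kr : ℂ → Finset (Fin N) → Finset (Fin N) → ℝ)
  (φ : ℂ → Finset (Fin N) → ℝ) (LB : Finset (Fin N) → ℝ) (f : St N k → ℝ),
  (∀ i, 0 ≤ u i ∧ 2 * k * u i ≤ 1) → 0 < t → 0 ≤ Z → (∀ γ, 0 ≤ f γ) → Lev ν n f →
  (∀ T T', K (Real.exp (-t) : ℝ) T T' = if T' = T then 1 else 0) →
  (∀ T F : Finset (Fin N), ∃ P : Polynomial ℂ, ∀ z : ℂ, z ≠ 0 →
    P.eval z = z ^ (∑ i ∈ F, ν i) * ∑ T' ∈ univ.filter (fun T' : Finset (Fin N) => F ⊆ T'), K z T T') →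
  (∀ z : ℂ, ‖z‖ = 1 → (∀ T T', K z T T' = (Kr z T T' : ℂ) ∧ 0 ≤ Kr z T T') ∧ (∀ T, 0 < φ z T) ∧
    ∀ T', ∑ T, muPl k u T * φ z T * Kr z T T' ≤ Z * muPl k u T') →
  (∀ T, CircleIntegrable (fun w => Real.log (φ (psi (Real.exp (-t)) w) T)) 0 1 ∧
    LB T ≤ Real.circleAverage (fun w => Real.log (φ (psi (Real.exp (-t)) w) T)) 0 1) →
  ∑ γ, muU u γ * f γ * ∑ a, LB (Ta γ a) ≤ n * t * ∑ γ, muU u γ * f γ + ∑ γ, muU u γ * f γ *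
    (Z ^ k * Real.exp (∑ i, (20 * k ^ 2 * u i ^ 2 + if γ i = none then 0 else 2 * k * u i)) - 1)

/-- the number of hits (NWS/HITS) -/
def S_HITS : Prop := ∀ (N k n : ℕ) (u : Fin N → ℝ) (ν : Fin N → ℕ) (f : St N k → ℝ), 0 < n → (∀ i, ν i ≤ n) →
  (∀ i, 0 ≤ u i ∧ 4 * k * u i ≤ 1) → (∀ γ, 0 ≤ f γ) → Lev ν n f →
  ∑ γ, muU u γ * f γ * (∑ i, if γ i = none then 0 else (ν i : ℝ)) ≤
    n * (6 + 5 * k * ∑ i, u i) * ∑ γ, muU u γ * f γ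

/-- `cosh (x t) - (z^x + z^{-x}) / 2` -/
noncomputable def cz (t : ℝ) (x : ℕ) (z : ℂ) : ℂ := (Real.cosh (x * t) : ℂ) - (z ^ x + (z⁻¹) ^ x) / 2

/-- `cosh (x t) - Re z^x` -/
noncomputable def cr (t : ℝ) (x : ℕ) (z : ℂ) : ℝ := Real.cosh (x * t) - (z ^ x).re

/-- the size of a set of cells -/
def sz {m : ℕ} (hs : Fin m → ℕ) (A : Finset (Fin m)) : ℕ := ∑ c ∈ A, hs c

/-- products of centred indicators -/
noncomputable def ee {K : Type} [Field K] {m : ℕ} (p : Fin m → K) (A X : Finset (Fin m)) : K :=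
  ∏ c ∈ A, ((if c ∈ X then 1 else 0) - p c)

/-- the density of the new position in a window, as a function of the set `X` of the cells hit -/
noncomputable def th {K : Type} [Field K] {m : ℕ} (κ : K) (c : ℕ → K) (v : ℕ) (hs : Fin m → ℕ) (p : Fin m → K)
    (a : Finset (Fin m) → K) (X : Finset (Fin m)) : K :=
  κ * c v + ∑ A ∈ univ.erase (∅ : Finset (Fin m)), a A * c (v * sz hs A) * ee p A X

/-- trigonometry (NWS/TRIG) -/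
def S_TRIG : Prop := ∀ (v : ℕ) (t : ℝ), 1 ≤ v → 0 < t → v * t ≤ 1 →
  (∀ z : ℂ, ‖z‖ = 1 → 0 < cr t v z ∧ cr t v z ≤ 3 ∧
    ∀ h : ℕ, 1 ≤ h → h * (v * t) ≤ 1 → cr t (v * h) z ≤ 2 * h ^ 2 * cr t v z) ∧
  ∀ x : ℕ, Continuous (fun θ : ℝ => cr t x (psi (Real.exp (-t)) (circleMap 0 1 θ))) ∧
    Real.circleAverage (fun w => cr t x (psi (Real.exp (-t)) w)) 0 1 = Real.sinh (x * t) ∧
    Real.circleAverage (fun w => cr t x (psi (Real.exp (-t)) w) ^ 2) 0 1 = Real.sinh (x * t) * Real.cosh (x * t)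

/-- the law of a set of cells -/
noncomputable def wc {m : ℕ} (p : Fin m → ℝ) (X : Finset (Fin m)) : ℝ := ∏ c, if c ∈ X then p c else 1 - p c

/-- functions on the cube (NWS/CUBE) -/
def S_CUBE : Prop := ∀ (m : ℕ) (p : Fin m → ℝ), (∀ c, 0 ≤ p c ∧ p c ≤ 1 / 2) →
  (∀ (g : Finset (Fin m) → ℝ) (M : ℝ), (∀ X, |g X| ≤ M) → ∃ gh : Finset (Fin m) → ℝ, (∀ A, |gh A| ≤ 2 ^ m * M) ∧
    gh ∅ = ∑ X, wc p X * g X ∧ ∀ X, g X = ∑ A, gh A * ee p A X) ∧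
  (∀ X : Finset (Fin m), (if X = ∅ then (∏ c, (1 - p c))⁻¹ else 0) =
    ∑ A : Finset (Fin m), (-1) ^ A.card * (∏ c ∈ A, (1 - p c))⁻¹ * ee p A X) ∧
  (∀ A A' : Finset (Fin m), ∑ X, wc p X * (ee p A X * ee p A' X) =
    if A = A' then ∏ c ∈ A, p c * (1 - p c) else 0) ∧ ∑ X, wc p X = 1

/-- the averages in one window (NWS/WIN) -/
def S_WIN : Prop := ∀ (m : ℕ) (hs : Fin m → ℕ) (ε : ℝ), (∀ c, 1 ≤ hs c) → 0 < ε → ∃ κ B0 υ0 : ℝ, 0 < κ ∧ 0 < B0 ∧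
  0 < υ0 ∧ ∀ (v : ℕ) (t : ℝ), 1 ≤ v → 0 < t → v * t ≤ υ0 → ∀ p : Fin m → ℝ, (∀ c, 0 ≤ p c ∧ p c ≤ 1 / 2) →
  ∀ B : ℝ, 0 < B → B ≤ B0 → ∃ a : Finset (Fin m) → ℝ, ∀ X : Finset (Fin m),
  (∀ z : ℂ, ‖z‖ = 1 → 0 ≤ th κ (fun x => cr t x z) v hs p a X ∧ th κ (fun x => cr t x z) v hs p a X ≤ 1 / 2 ∧
    0 ≤ κ * cr t v z ∧ κ * cr t v z ≤ 1 / 2) ∧
  v * t * (B * ((if X = ∅ then (∏ c, (1 - p c))⁻¹ else 0) - 1) - ((1 / 2 + ε) *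
      (∑ A ∈ univ.erase (∅ : Finset (Fin m)), (∏ c ∈ A, p c / (1 - p c)) / (sz hs A : ℝ)) + ε) * B ^ 2) ≤
    Real.circleAverage (fun w => Real.log ((1 - th κ (fun x => cr t x (psi (Real.exp (-t)) w)) v hs p a X) /
      (1 - κ * cr t v (psi (Real.exp (-t)) w)))) 0 1

/-- the exponential integral (NWS/E1) -/
def S_E1 : Prop := ∀ x y : ℝ, 0 < x → x ≤ 1 → x ≤ y →
  ∫ s in x..y, Real.exp (-s) / s ≤ -Real.log x - Real.eulerMascheroniConstant + 2 * x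

/-- the evaluation of the main sum (NWS/EVAL) -/
def S_EVAL : Prop := ∃ C : ℝ, 0 ≤ C ∧ ∀ ρ : ℕ, 2 ≤ ρ → ∃ J0 : ℕ, 1 ≤ J0 ∧ ∀ J : ℕ, J0 ≤ J →
  J * ∑ A ∈ (Ico J (ρ * J)).powerset.erase ∅, (∏ h ∈ A, 1 / (h : ℝ)) / (∑ h ∈ A, (h : ℝ)) ≤
    Real.exp (-Real.eulerMascheroniConstant) * Real.log ρ + C

/-- the places of `T` in the window `l` -/
def Tl {N : ℕ} (win : Fin N → ℕ) (T : Finset (Fin N)) (l : ℕ) : Finset (Fin N) := T.filter (fun i => win i = l)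

/-- the law in the window `l` -/
noncomputable def mW {K : Type} [Field K] {N : ℕ} (win : Fin N → ℕ) (u : Fin N → K) (l : ℕ) (T : Finset (Fin N)) : K :=
  ∏ i ∈ univ.filter (fun i => win i = l), (if i ∈ T then u i else 1 - u i)

/-- the kernel of one site -/
noncomputable def KW {K : Type} [Field K] {N m : ℕ} (win : Fin N → ℕ) (cel : Fin N → Fin m) (u : Fin N → K) (L : ℕ)
    (σ : ℕ → K) (θ : ℕ → Finset (Fin m) → K) (T T' : Finset (Fin N)) : K :=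
  ∏ l ∈ range L, if (∀ i ∈ T, l ≤ win i) then
      (1 - σ l) * (if Tl win T' l = Tl win T l then 1 else 0) + mW win u l T' * θ l ((Tl win T' l).image cel)
    else (if Tl win T' l = Tl win T l then 1 else 0)

/-- the density for one site -/
noncomputable def PW {N m : ℕ} (win : Fin N → ℕ) (cel : Fin N → Fin m) (L : ℕ)
    (σ : ℕ → ℝ) (θ : ℕ → Finset (Fin m) → ℝ) (T : Finset (Fin N)) : ℝ :=
  ∏ l ∈ range L, if (∀ i ∈ T, l ≤ win i) then (1 - θ l ((Tl win T l).image cel)) / (1 - σ l) else 1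

/-- the kernel of one site is almost adjoint (NWS/SEQ) -/
def S_SEQ : Prop := ∀ (N m L k : ℕ) (win : Fin N → ℕ) (cel : Fin N → Fin m) (u : Fin N → ℝ) (σ : ℕ → ℝ)
  (θ : ℕ → Finset (Fin m) → ℝ), (∀ i, win i < L) → (∀ i, 0 ≤ u i ∧ u i ≤ 1 / 2) →
  (∀ l < L, ∀ X, 0 ≤ θ l X ∧ θ l X ≤ 1 / 2) →
  (∀ l < L, σ l = ∑ S ∈ (univ.filter (fun i => win i = l)).powerset, mW win u l S * θ l (S.image cel)) →
  ∀ T' : Finset (Fin N), ∑ T, muPl k u T * PW win cel L σ θ T * KW win cel u L σ θ T T' ≤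
    Real.exp (4 * k * ∑ i, u i ^ 2) * muPl k u T'

/-- the probability of a hit in a cell -/
noncomputable def pc {N m : ℕ} (win : Fin N → ℕ) (cel : Fin N → Fin m) (u : Fin N → ℝ) (l : ℕ) (c : Fin m) : ℝ :=
  1 - ∏ i ∈ univ.filter (fun i => win i = l ∧ cel i = c), (1 - u i)

/-- the moments of the kernel of one site (NWS/MOM) -/
def S_MOM : Prop := ∀ (N m L : ℕ) (win : Fin N → ℕ) (cel : Fin N → Fin m) (u : Fin N → ℝ) (t κ : ℝ) (v : ℕ → ℕ)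
  (hs : Fin m → ℕ) (a : ℕ → Finset (Fin m) → ℝ), (∀ c, 1 ≤ hs c) → (∀ i, win i < L) →
  (∀ T F : Finset (Fin N), ∃ P : Polynomial ℂ, ∀ z : ℂ, z ≠ 0 →
    P.eval z = z ^ (∑ i ∈ F, v (win i) * hs (cel i)) * ∑ T' ∈ univ.filter (fun T' : Finset (Fin N) => F ⊆ T'),
      KW win cel (fun i => (u i : ℂ)) L (fun l => (κ : ℂ) * cz t (v l) z)
        (fun l X => th (κ : ℂ) (fun x => cz t x z) (v l) hs (fun c => (pc win cel u l c : ℂ))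
          (fun A => (a l A : ℂ)) X) T T') ∧
  ∀ (l : ℕ) (c : ℕ → ℝ), κ * c (v l) = ∑ S ∈ (univ.filter (fun i => win i = l)).powerset,
    mW win u l S * th κ c (v l) hs (pc win cel u l) (a l) (S.image cel)

/-- one site (NWS/SITE) -/
def S_SITE : Prop := ∀ (m : ℕ) (hs : Fin m → ℕ) (ε : ℝ), (∀ c, 1 ≤ hs c) → 0 < ε → ∃ B0 υ0 : ℝ, 0 < B0 ∧ 0 < υ0 ∧
  ∀ (N L k : ℕ) (win : Fin N → ℕ) (cel : Fin N → Fin m) (u : Fin N → ℝ) (v : ℕ → ℕ) (t : ℝ) (B : ℕ → ℝ) (D : ℝ),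
  1 ≤ L → (∀ i, win i < L) → (∀ i, 0 ≤ u i ∧ u i ≤ 1 / 2) → 0 < t → (∀ l < L, 1 ≤ v l ∧ v l * t ≤ υ0) →
  (∀ l < L, 0 < B l ∧ B l ≤ B0) → (∀ l < L, ∀ c, pc win cel u l c ≤ 1 / 2) →
  (∀ l < L, (1 / 2 + ε) * (∑ A ∈ univ.erase (∅ : Finset (Fin m)),
    (∏ c ∈ A, pc win cel u l c / (1 - pc win cel u l c)) / (sz hs A : ℝ)) + ε ≤ D) →
  (∀ l, l + 1 < L → v (l + 1) * (B (l + 1) + D * B (l + 1) ^ 2) ≤ (∏ c, (1 - pc win cel u l c))⁻¹ * (v l * B l)) →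
  ∃ (K : ℂ → Finset (Fin N) → Finset (Fin N) → ℂ) (Kr : ℂ → Finset (Fin N) → Finset (Fin N) → ℝ)
    (φ : ℂ → Finset (Fin N) → ℝ),
    (∀ T T', K (Real.exp (-t) : ℝ) T T' = if T' = T then 1 else 0) ∧
    (∀ T F : Finset (Fin N), ∃ P : Polynomial ℂ, ∀ z : ℂ, z ≠ 0 →
      P.eval z = z ^ (∑ i ∈ F, v (win i) * hs (cel i)) *
        ∑ T' ∈ univ.filter (fun T' : Finset (Fin N) => F ⊆ T'), K z T T') ∧
    (∀ z : ℂ, ‖z‖ = 1 → (∀ T T', K z T T' = (Kr z T T' : ℂ) ∧ 0 ≤ Kr z T T') ∧ (∀ T, 0 < φ z T) ∧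
      ∀ T', ∑ T, muPl k u T * φ z T * Kr z T T' ≤ Real.exp (4 * k * ∑ i, u i ^ 2) * muPl k u T') ∧
    ∀ T, CircleIntegrable (fun w => Real.log (φ (psi (Real.exp (-t)) w) T)) 0 1 ∧
      (if T = ∅ then v (L - 1) * t * (∏ c, (1 - pc win cel u (L - 1) c))⁻¹ * B (L - 1) else 0) -
        v 0 * t * (B 0 + D * B 0 ^ 2) ≤
      Real.circleAverage (fun w => Real.log (φ (psi (Real.exp (-t)) w) T)) 0 1

/-- the sharp limit in the model (NWS/PS) -/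
def S_PSs : Prop := ∀ ε : ℝ, 0 < ε → ∃ C : ℝ, 0 ≤ C ∧ ∀ k : ℕ, 1 ≤ k → ∃ (m n : ℕ) (η q0 : ℝ), 0 < m ∧ m ≤ n ∧
  0 < η ∧ 0 < q0 ∧ ∀ (N : ℕ) (q : Fin N → ℝ) (β : Fin N → ℕ), (∀ i, m ≤ β i ∧ β i < n) → (∀ i, q0 ≤ q i) →
  (∀ j, m ≤ j → j < n → Real.log (((j : ℝ) + 1) / j) - η ≤ ∑ i ∈ univ.filter (fun i => β i = j), 1 / q i ∧
    ∑ i ∈ univ.filter (fun i => β i = j), 1 / q i ≤ Real.log (((j : ℝ) + 1) / j) + η) →
  ∀ f : St N k → ℝ, (∀ γ, 0 ≤ f γ) → Lev β n f →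
    ∑ γ, muP q γ * f γ * ((alive γ N).card : ℝ) ≤
      ((Real.exp (-Real.eulerMascheroniConstant) / 2 + ε) * Real.log k + C) * ∑ γ, muP q γ * f γ

/-- the primes in the blocks, upper bound (NWS/MER) -/
def S_MER2 : Prop := ∀ (m n : ℕ) (η : ℝ), 0 < m → m ≤ n → 0 < η → ∃ Q0 : ℕ, ∀ Q : ℕ, Q0 ≤ Q →
  ∀ j, m ≤ j → j < n → ∑ p ∈ ((Icc 1 Q).filter Nat.Prime).filter (fun p : ℕ =>
    (j : ℝ) * Real.log Q < n * Real.log p ∧ n * Real.log p ≤ ((j : ℝ) + 1) * Real.log Q), 1 / (p : ℝ) ≤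
    Real.log (((j : ℝ) + 1) / j) + η

end Pool.Agent.N422.NWS
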